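import Mathlib
import Pool.Agent.Work.MP_97603a_co.Q2.Main

-- merged part: Pool.Agent.Work.MP_97603a_co.Hedge.Red
section
/-! Weights killed by all friendly colourings: the contraction step and the counting step. -/

namespace Pool.Agent.Work.MP_97603a_co.Hedge

open Finset Pool.Agent.Work.MP_97603a_co.Q2

variable {V : Type} [Fintype V] [DecidableEq V]

open Classical in
/-- total weight of a set -/
noncomputable def ms (l : V → ℚ) (U : Set V) : ℚ := ∑ a, if a ∈ U then l a else 0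

/-- every set that is friendly with friendly complement has weight zero -/
def Kill (N : V → Finset V) (l : V → ℚ) : Prop := ∀ U : Set V, Fr N U → Fr N Uᶜ → ms l U = 0

variable {N : V → Finset V} {o : V → V} {l : V → ℚ}

omit [Fintype V] [DecidableEq V] in
lemma sp_ext {u v : V} (h : Sp N u v) : ∃ U : Set V, Fr N U ∧ Fr N Uᶜ ∧ u ∈ U ∧ v ∉ U := by
  obtain ⟨U0, U1, h1, h2, h3, h4, h5⟩ := h
  let W : Set V := {z | ∃ X : Set V, Fr N X ∧ Disjoint U0 X ∧ z ∈ X}
  have hW : Fr N W := by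
    rintro x ⟨X, c1, c2, c3⟩
    rcases c1 x c3 with c4 | ⟨y, c4, c5⟩
    · exact Or.inl c4
    · exact Or.inr ⟨y, c4, X, c1, c2, c5⟩
  have hU : ∀ z ∈ U0, z ∉ W := by
    rintro z hz ⟨X, -, c2, c3⟩
    exact Set.disjoint_left.1 c2 hz c3
  refine ⟨Wᶜ, ?_, by rw [compl_compl]; exact hW, hU u h4, fun e => e ⟨U1, h3, h1, h5⟩⟩
  intro x hx
  by_cases hx0 : x ∈ U0
  · rcases h2 x hx0 with c1 | ⟨y, c1, c2⟩
    · exact Or.inl c1
    · exact Or.inr ⟨y, c1, hU y c2⟩
  · rcases (N x).eq_empty_or_nonempty with c0 | ⟨y, c0⟩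
    · exact Or.inl c0
    · refine Or.inr ⟨y, c0, fun c2 => hx ⟨insert x W, ?_, ?_, Or.inl rfl⟩⟩
      · rintro z (rfl | hz)
        · exact Or.inr ⟨y, c0, Or.inr c2⟩
        · rcases hW z hz with c3 | ⟨w, c3, c4⟩
          · exact Or.inl c3
          · exact Or.inr ⟨w, c3, Or.inr c4⟩
      · rw [Set.disjoint_left]
        rintro z hz (rfl | c3)
        · exact hx0 hz
        · exact hU z hz c3

lemma ex_col (h : OK N o) {u v : V} (huv : u ≠ v) :
    ∃ U : Set V, Fr N U ∧ Fr N Uᶜ ∧ u ∈ U ∧ v ∉ U :=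
  sp_ext (all_sp _ N o h (Nat.lt_succ_self _) u v huv)

omit [Fintype V] in
lemma fr_lift {x y : V} {K : Finset V} (hxy : y ∈ N x) (hne : x ≠ y)
    (hK : ∀ a ∈ K, a = x ∨ (a = y ∧ (N y = ∅ ∨ x ∈ N y))) {U : Set V}
    (hU : Fr (ct N x y K) U) : Fr N (lf x y U) := by
  intro a ha
  have ha' : ph x y a ∈ U := ha
  by_cases h1 : a = x
  · subst h1
    rw [ph_self] at ha'
    exact Or.inr ⟨y, hxy, by show ph a y y ∈ U; rwa [ph_of_ne hne.symm]⟩
  · rw [ph_of_ne h1] at ha'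
    by_cases h2 : a ∈ K
    · rcases hK a h2 with h3 | ⟨h3, h4 | h4⟩
      · exact absurd h3 h1
      · exact Or.inl (h3 ▸ h4)
      · exact Or.inr ⟨x, h3 ▸ h4, by show ph x y x ∈ U; rw [ph_self]; exact h3 ▸ ha'⟩
    · rcases hU a ha' with h3 | ⟨b, h3, h4⟩
      · left
        simpa [ct, h2] using h3
      · simp only [ct, h2, if_false, mem_image] at h3
        obtain ⟨c, h5, rfl⟩ := h3
        exact Or.inr ⟨c, h5, h4⟩

omit [Fintype V] in
lemma ok_ct (h : OK N o) {x y w : V} (hxy : y ∈ N x) {K : Finset V} (hxK : x ∈ K)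
    (hyK : x ∈ N y → y ∈ K)
    (hdom : ∀ a, x ∈ N a → y ∈ N a → a = w ∧ y ∈ K)
    (hown : y ∈ K → N y = ∅ → o y = x) :
    OK (ct N x y K) (if y ∈ K then Function.update o y w else o) := by
  have hne : x ≠ y := fun h3 => h.irr x (h3 ▸ hxy)
  have hx0 : N x ≠ ∅ := ne_empty_of_mem hxy
  have hemp : ∀ a, N a = ∅ → ct N x y K a = ∅ := by
    intro a ha
    simp [ct, ha]
  refine ⟨?_, ?_⟩
  · intro a ha
    by_cases h3 : a ∈ K
    · simp [ct, h3] at ha
    · simp only [ct, h3, if_false, mem_image] at ha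
      obtain ⟨c, h4, h5⟩ := ha
      by_cases h6 : c = x
      · rw [h6, ph_self] at h5
        exact h3 (h5 ▸ hyK (h5 ▸ h6 ▸ h4))
      · rw [ph_of_ne h6] at h5
        exact h.irr a (h5 ▸ h4)
  · intro a
    by_cases h3 : a ∈ K
    · exact Or.inr (Or.inl (by simp [ct, h3]))
    have hax : a ≠ x := fun h4 => h3 (h4 ▸ hxK)
    have hct : ct N x y K a = (N a).image (ph x y) := by simp [ct, h3]
    have hwit : ∀ z, N z = ∅ → o z = a → y ∈ K → z ≠ y := by
      intro z h4 h5 h6 h7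
      subst h7
      exact hax (h5.symm.trans (hown h6 h4))
    by_cases h4 : x ∈ N a ∧ y ∈ N a
    · obtain ⟨h5, h6⟩ := hdom a h4.1 h4.2
      have h7 : (N a).card = 3 := by
        rcases h.deg a with h7 | h7 | ⟨h7, z, h8, h9, h10⟩
        · exact h7
        · simp [h7] at h4
        · exfalso
          have h11 := hwit z h9 h10 h6
          have h12 : z ≠ x := fun h13 => hx0 (h13 ▸ h9)
          have h13 : ({x, y, z} : Finset V) ⊆ N a := by
            intro b hb
            simp only [mem_insert, mem_singleton] at hb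
            rcases hb with rfl | rfl | rfl
            exacts [h4.1, h4.2, h8]
          have h14 := card_le_card h13
          rw [card_eq_three.2 ⟨x, y, z, hne, h12.symm, h11.symm, rfl⟩] at h14
          omega
      refine Or.inr (Or.inr ⟨?_, y, ?_, by simp [ct, h6], by simp [h6, h5]⟩)
      · rw [hct, img_erase hne h4.2, card_erase_of_mem h4.1, h7]
      · rw [hct, img_erase hne h4.2]
        exact mem_erase.2 ⟨hne.symm, h4.2⟩
    · rcases h.deg a with h7 | h7 | ⟨h7, z, h8, h9, h10⟩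
      · exact Or.inl (by rw [hct, card_img h4, h7])
      · exact Or.inr (Or.inl (hemp a h7))
      · have h12 : z ≠ x := fun h13 => hx0 (h13 ▸ h9)
        refine Or.inr (Or.inr ⟨by rw [hct, card_img h4, h7], z, ?_, hemp z h9, ?_⟩)
        · rw [hct]
          exact mem_image.2 ⟨z, h8, ph_of_ne h12⟩
        · by_cases h6 : y ∈ K
          · simp [h6, Function.update_of_ne (hwit z h9 h10 h6), h10]
          · simp [h6, h10]

/-- push-forward of a weight along the contraction -/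
def pf (l : V → ℚ) (x y a : V) : ℚ := if a = x then 0 else if a = y then l x + l y else l a

lemma ms_lf {x y : V} (hne : x ≠ y) (U : Set V) : ms l (lf x y U) = ms (pf l x y) U := by
  classical
  unfold ms
  rw [← sub_eq_zero, ← sum_sub_distrib, Fintype.sum_eq_add x y hne]
  · have h1 : x ∈ lf x y U ↔ y ∈ U := by
      show ph x y x ∈ U ↔ _
      rw [ph_self]
    have h2 : y ∈ lf x y U ↔ y ∈ U := by
      show ph x y y ∈ U ↔ _
      rw [ph_of_ne hne.symm]
    by_cases h3 : y ∈ U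
    · simp [h1, h2, h3, pf, hne.symm]
    · simp [h1, h2, h3, pf]
  · rintro c ⟨h1, h2⟩
    have h3 : c ∈ lf x y U ↔ c ∈ U := by
      show ph x y c ∈ U ↔ _
      rw [ph_of_ne h1]
    simp [h3, pf, h1, h2]

/-- the induction hypothesis -/
def IK (N : V → Finset V) : Prop :=
  ∀ (N' : V → Finset V) (o' : V → V), OK N' o' → mu N' < mu N → ∀ l, Kill N' l → ∀ a, l a = 0

lemma zero_ct (h : OK N o) (ih : IK N) (hl : Kill N l) {x y w : V} (hxy : y ∈ N x)
    {K : Finset V} (hxK : x ∈ K)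
    (hK : ∀ a ∈ K, a = x ∨ (a = y ∧ (N y = ∅ ∨ x ∈ N y)))
    (hyK : x ∈ N y → y ∈ K)
    (hdom : ∀ a, x ∈ N a → y ∈ N a → a = w ∧ y ∈ K)
    (hown : y ∈ K → N y = ∅ → o y = x) (a : V) : l a = 0 := by
  classical
  have hne : x ≠ y := fun h3 => h.irr x (h3 ▸ hxy)
  have hemp : ∀ a, N a = ∅ → ct N x y K a = ∅ := by
    intro a ha
    simp [ct, ha]
  have h1 : ∀ a, pf l x y a = 0 := by
    refine ih _ _ (ok_ct h hxy hxK hyK hdom hown)
      (mu_lt hemp (ne_empty_of_mem hxy) (by simp [ct, hxK])) _ ?_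
    intro U c1 c2
    rw [← ms_lf hne]
    exact hl _ (fr_lift hxy hne hK c1) (fr_lift hxy hne hK c2)
  have h2 : ∀ c, c ≠ x → c ≠ y → l c = 0 := by
    intro c c1 c2
    simpa [pf, c1, c2] using h1 c
  have h3 : l x + l y = 0 := by simpa [pf, hne.symm] using h1 y
  obtain ⟨U, c1, c2, c3, c4⟩ := ex_col h hne
  have h4 := hl U c1 c2
  unfold ms at h4
  rw [Fintype.sum_eq_add x y hne (by rintro c ⟨e1, e2⟩; simp [h2 c e1 e2])] at h4
  simp only [c3, c4, if_true, if_false, add_zero] at h4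
  by_cases e1 : a = x
  · rw [e1, h4]
  · by_cases e2 : a = y
    · rw [e2]
      linarith
    · exact h2 a e1 e2

/-! ### counting -/

def e0 (N : V → Finset V) (x y : V) : ℤ :=
  ((Dm N x y).card : ℤ) - (if y ∈ N x then 1 else 0) - (if x ∈ N y then 1 else 0)

def g0 (N : V → Finset V) (t : V) : ℤ := ∑ y ∈ univ.erase t, e0 N t y

lemma g0_eq (hirr : ∀ x, x ∉ N x) (t : V) :
    g0 N t = ∑ w ∈ In N t, (((N w).card : ℤ) - 2) - (N t).card := by
  unfold g0 e0
  rw [sum_sub_distrib, sum_sub_distrib]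
  have h1 : ∑ y ∈ univ.erase t, ((Dm N t y).card : ℤ) = ∑ w ∈ In N t, (((N w).card : ℤ) - 1) := by
    have h2 : ∀ y, ((Dm N t y).card : ℤ) = ∑ w ∈ In N t, (if y ∈ N w then (1 : ℤ) else 0) := by
      intro y
      rw [sum_boole]
      congr 2
      ext w
      simp [mem_Dm, mem_In]
    rw [sum_congr rfl (fun y _ => h2 y), sum_comm]
    exact sum_congr rfl (fun w hw => sum_ind hirr t w (mem_In.1 hw))
  have h2 : ∑ y ∈ univ.erase t, (if y ∈ N t then (1 : ℤ) else 0) = (N t).card := by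
    rw [sum_boole]
    congr 2
    ext y
    simp only [mem_filter, mem_erase, mem_univ, and_true]
    exact ⟨fun h => h.2, fun h => ⟨fun h3 => hirr t (h3 ▸ h), h⟩⟩
  have h3 : ∑ y ∈ univ.erase t, (if t ∈ N y then (1 : ℤ) else 0) = ∑ _w ∈ In N t, (1 : ℤ) := by
    rw [sum_boole, sum_const]
    simp only [nsmul_eq_mul, mul_one]
    congr 2
    ext y
    simp only [mem_filter, mem_erase, mem_univ, and_true, mem_In]
    exact ⟨fun h => h.2, fun h => ⟨fun h3 => hirr t (h3 ▸ h), h⟩⟩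
  rw [h1, h2, h3]
  have h5 : ∑ w ∈ In N t, (((N w).card : ℤ) - 2) =
      ∑ w ∈ In N t, (((N w).card : ℤ) - 1) - ∑ _w ∈ In N t, (1 : ℤ) := by
    rw [← sum_sub_distrib]
    exact sum_congr rfl (fun w _ => by ring)
  rw [h5]
  ring

lemma g0_total (h : OK N o) :
    ∑ t, g0 N t = - 2 * ((univ.filter (fun x => (N x).card = 2)).card : ℤ) := by
  rw [sum_congr rfl (fun t _ => g0_eq h.irr t), sum_sub_distrib]
  have h1 : ∑ t, ∑ w ∈ In N t, (((N w).card : ℤ) - 2) =
      ∑ w, ((N w).card : ℤ) * (((N w).card : ℤ) - 2) := by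
    have h2 : ∀ t, ∑ w ∈ In N t, (((N w).card : ℤ) - 2) =
        ∑ w, (if t ∈ N w then (((N w).card : ℤ) - 2) else 0) := by
      intro t
      unfold In
      rw [sum_filter]
    rw [sum_congr rfl (fun t _ => h2 t), sum_comm]
    refine sum_congr rfl (fun w _ => ?_)
    rw [← sum_filter, sum_const]
    simp
  have h3 : ∀ w, ((N w).card : ℤ) * (((N w).card : ℤ) - 2) - (N w).card =
      (if (N w).card = 2 then -2 else 0) := by
    intro w
    rcases h.deg w with h4 | h4 | ⟨h4, -⟩ <;> simp [h4]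
  rw [h1, ← sum_sub_distrib, sum_congr rfl (fun w _ => h3 w), ← sum_filter, sum_const]
  simp only [nsmul_eq_mul]
  ring

/-- the tight structure: two vertices have as many common in-neighbours as arcs between them -/
structure T0 (N : V → Finset V) : Prop where
  irr : ∀ x, x ∉ N x
  deg : ∀ x, (N x).card = 3 ∨ N x = ∅
  dm : ∀ x y, x ≠ y →
    (Dm N x y).card = (if y ∈ N x then 1 else 0) + (if x ∈ N y then 1 else 0)
  ind : ∀ t, (In N t).card = (N t).card

lemma tight_of (h : OK N o) (d1 : ∀ x y, y ∈ N x → 1 ≤ (Dm N x y).card)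
    (d2 : ∀ x y, y ∈ N x → x ∈ N y → 2 ≤ (Dm N x y).card) : T0 N := by
  have he : ∀ x y, 0 ≤ e0 N x y := by
    intro x y
    unfold e0
    by_cases h4 : y ∈ N x <;> by_cases h5 : x ∈ N y
    · have := d2 x y h4 h5
      simp only [h4, h5, if_true]
      omega
    · have := d1 x y h4
      simp only [h4, h5, if_true, if_false]
      omega
    · have := d1 y x h5
      rw [Dm_comm] at this
      simp only [h4, h5, if_true, if_false]
      omega
    · simp only [h4, h5, if_false]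
      omega
  have hg : ∀ t, 0 ≤ g0 N t := fun t => sum_nonneg (fun y _ => he t y)
  have h1 := g0_total h
  have h2 : 0 ≤ ∑ t, g0 N t := sum_nonneg (fun t _ => hg t)
  have h3 : (univ.filter (fun x => (N x).card = 2)).card = 0 := by omega
  have h4 : ∑ t, g0 N t = 0 := by omega
  have h5 : ∀ t, g0 N t = 0 := fun t =>
    (sum_eq_zero_iff_of_nonneg (fun t _ => hg t)).1 h4 t (mem_univ t)
  have hdeg : ∀ x, (N x).card = 3 ∨ N x = ∅ := by
    intro x
    rcases h.deg x with c | c | ⟨c, -⟩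
    · exact Or.inl c
    · exact Or.inr c
    · have : x ∈ univ.filter (fun x => (N x).card = 2) := by simpa using c
      rw [card_eq_zero.1 h3] at this
      simp at this
  refine ⟨h.irr, hdeg, ?_, ?_⟩
  · intro x y hxy
    have h6 := (sum_eq_zero_iff_of_nonneg (fun y _ => he x y)).1 (h5 x) y
      (mem_erase.2 ⟨hxy.symm, mem_univ y⟩)
    unfold e0 at h6
    split_ifs at h6 ⊢ <;> omega
  · intro t
    have h6 := h5 t
    rw [g0_eq h.irr] at h6
    have h7 : ∑ w ∈ In N t, (((N w).card : ℤ) - 2) = ∑ _w ∈ In N t, (1 : ℤ) := by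
      refine sum_congr rfl (fun w hw => ?_)
      rcases hdeg w with c | c
      · rw [c]
        norm_num
      · have := mem_In.1 hw
        simp [c] at this
    rw [h7] at h6
    simp only [sum_const, nsmul_eq_mul, mul_one] at h6
    omega

/-- either some contraction applies, or the digraph is tight -/
lemma zero_or_tight (h : OK N o) (ih : IK N) (hl : Kill N l) : (∀ a, l a = 0) ∨ T0 N := by
  by_contra hc
  rw [not_or] at hc
  have d2 : ∀ x y, y ∈ N x → x ∈ N y → 2 ≤ (Dm N x y).card := by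
    intro x y c1 c2
    by_contra hc'
    have c5 : ∃ w, ∀ a ∈ Dm N x y, a = w := by
      rcases (Dm N x y).eq_empty_or_nonempty with c6 | ⟨w, c6⟩
      · exact ⟨x, by simp [c6]⟩
      · exact ⟨w, fun a ha => card_le_one.1 (by omega) a ha w c6⟩
    obtain ⟨w, hw⟩ := c5
    refine hc.1 (zero_ct (K := {x, y}) (w := w) h ih hl c1 (by simp) ?_ (by simp)
      (fun a e1 e2 => ⟨hw a (mem_Dm.2 ⟨e1, e2⟩), by simp⟩) ?_)
    · intro a ha
      simp only [mem_insert, mem_singleton] at ha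
      rcases ha with e | e
      · exact Or.inl e
      · exact Or.inr ⟨e, Or.inr c2⟩
    · intro _ e
      simp [e] at c2
  refine hc.2 (tight_of h ?_ d2)
  intro x y c1
  by_cases c2 : x ∈ N y
  · exact le_trans (by norm_num) (d2 x y c1 c2)
  · by_contra hc'
    have c5 : Dm N x y = ∅ := card_eq_zero.1 (by omega)
    have c6 : y ≠ x := fun e => h.irr x (e ▸ c1)
    refine hc.1 (zero_ct (K := {x}) (w := x) h ih hl c1 (by simp)
      (fun a ha => Or.inl (mem_singleton.1 ha)) (fun e => absurd e c2) ?_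
      (fun e => absurd (mem_singleton.1 e) c6))
    intro a e1 e2
    have := mem_Dm.2 ⟨e1, e2⟩
    simp [c5] at this

end Pool.Agent.Work.MP_97603a_co.Hedge
end

-- merged part: Pool.Agent.Work.MP_97603a_co.Hedge.Tight
section
/-! The tight structure: sinks, digons, and the local structure of the digon-free part. -/

namespace Pool.Agent.Work.MP_97603a_co.Hedge

open Finset Pool.Agent.Work.MP_97603a_co.Q2

variable {V : Type} [Fintype V] [DecidableEq V]
variable {N : V → Finset V} {l : V → ℚ}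

lemma T0.ok (h : T0 N) : OK N id :=
  ⟨h.irr, fun x => (h.deg x).elim Or.inl (fun e => Or.inr (Or.inl e))⟩

lemma T0.ne (h : T0 N) {x y : V} (h1 : y ∈ N x) : x ≠ y := fun e => h.irr x (e ▸ h1)

lemma T0.out3 (h : T0 N) {x y : V} (h1 : y ∈ N x) : (N x).card = 3 :=
  (h.deg x).resolve_right (ne_empty_of_mem h1)

lemma T0.out3' (h : T0 N) {x y : V} (h1 : y ∈ N x) : (N y).card = 3 := by
  have h2 := card_pos.2 ⟨x, mem_In.2 h1⟩
  rw [h.ind] at h2
  rcases h.deg y with c | c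
  · exact c
  · simp [c] at h2

lemma T0.in3 (h : T0 N) {x y : V} (h1 : y ∈ N x) : (In N y).card = 3 := by
  rw [h.ind, h.out3' h1]

omit [Fintype V] in
lemma eq_three {s : Finset V} {a b c : V} (hs : s.card = 3) (ha : a ∈ s) (hb : b ∈ s) (hc : c ∈ s)
    (h1 : a ≠ b) (h2 : a ≠ c) (h3 : b ≠ c) {z : V} (hz : z ∈ s) : z = a ∨ z = b ∨ z = c := by
  have h4 : ({a, b, c} : Finset V) ⊆ s := by
    intro x hx
    simp only [mem_insert, mem_singleton] at hx
    rcases hx with rfl | rfl | rfl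
    exacts [ha, hb, hc]
  have h5 := eq_of_subset_of_card_le h4
    (by rw [hs, card_eq_three.2 ⟨a, b, c, h1, h2, h3, rfl⟩])
  rw [← h5] at hz
  simpa using hz

/-- two out-neighbours of one vertex are adjacent -/
lemma T0.adj (h : T0 N) {w x y : V} (hx : x ∈ N w) (hy : y ∈ N w) (hne : x ≠ y) :
    y ∈ N x ∨ x ∈ N y := by
  have h1 := card_pos.2 ⟨w, mem_Dm.2 ⟨hx, hy⟩⟩
  rw [h.dm x y hne] at h1
  by_contra hc
  rw [not_or] at hc
  simp [hc.1, hc.2] at h1

/-- every arc is dominated -/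
lemma T0.dom (h : T0 N) {x y : V} (h1 : y ∈ N x) : ∃ w, x ∈ N w ∧ y ∈ N w := by
  have h2 := h.dm x y (h.ne h1)
  have h3 : 0 < (Dm N x y).card := by
    rw [h2]
    simp only [h1, if_true]
    omega
  obtain ⟨w, hw⟩ := card_pos.1 h3
  exact ⟨w, mem_Dm.1 hw⟩

/-- two common in-neighbours force a digon -/
lemma T0.digon (h : T0 N) {w w' x y : V} (hne : x ≠ y) (hw : w ≠ w') (h1 : x ∈ N w)
    (h2 : y ∈ N w) (h3 : x ∈ N w') (h4 : y ∈ N w') : y ∈ N x ∧ x ∈ N y := by
  have h5 : ({w, w'} : Finset V) ⊆ Dm N x y := by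
    intro a ha
    simp only [mem_insert, mem_singleton] at ha
    rcases ha with rfl | rfl
    exacts [mem_Dm.2 ⟨h1, h2⟩, mem_Dm.2 ⟨h3, h4⟩]
  have h6 := card_le_card h5
  rw [card_pair hw, h.dm x y hne] at h6
  split_ifs at h6 with c1 c2
  · exact ⟨c1, c2⟩
  all_goals omega

lemma T0.twin_in (h : T0 N) {x y w : V} (h1 : y ∈ N x) (h2 : x ∈ N y) (h3 : x ∈ N w)
    (h4 : w ≠ y) : y ∈ N w := by
  have h5 : Dm N x y ⊆ (In N x).erase y := by
    intro a ha
    obtain ⟨c1, c2⟩ := mem_Dm.1 ha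
    exact mem_erase.2 ⟨h.ne c2, mem_In.2 c1⟩
  have h6 := eq_of_subset_of_card_le h5 (by
    rw [card_erase_of_mem (mem_In.2 h2), h.in3 h2, h.dm x y (h.ne h1)]
    simp [h1, h2])
  have h7 : w ∈ (In N x).erase y := mem_erase.2 ⟨h4, mem_In.2 h3⟩
  rw [← h6] at h7
  exact (mem_Dm.1 h7).2

lemma T0.twin_out (h : T0 N) {x y p : V} (h1 : y ∈ N x) (h2 : x ∈ N y) (h3 : p ∈ N x)
    (h4 : p ≠ y) : p ∈ N y := by
  rcases h.adj h1 h3 h4.symm with c | c
  · exact c
  · have c1 : x ∈ N p := h.twin_in h2 h1 c (h.ne h3).symm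
    exact h.twin_in h3 c1 h2 h4.symm

lemma T0.swap_arc (h : T0 N) {x y : V} (h1 : y ∈ N x) (h2 : x ∈ N y) {a b : V} (hab : b ∈ N a) :
    Equiv.swap x y b ∈ N (Equiv.swap x y a) := by
  by_cases c1 : a = x
  · subst c1
    rw [Equiv.swap_apply_left]
    by_cases c2 : b = y
    · subst c2
      rwa [Equiv.swap_apply_right]
    · rw [Equiv.swap_apply_of_ne_of_ne (h.ne hab).symm c2]
      exact h.twin_out h1 h2 hab c2
  · by_cases c3 : a = y
    · subst c3
      rw [Equiv.swap_apply_right]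
      by_cases c2 : b = x
      · subst c2
        rwa [Equiv.swap_apply_left]
      · rw [Equiv.swap_apply_of_ne_of_ne c2 (h.ne hab).symm]
        exact h.twin_out h2 h1 hab c2
    · rw [Equiv.swap_apply_of_ne_of_ne c1 c3]
      by_cases c2 : b = x
      · subst c2
        rw [Equiv.swap_apply_left]
        exact h.twin_in h1 h2 hab c3
      · by_cases c4 : b = y
        · subst c4
          rw [Equiv.swap_apply_right]
          exact h.twin_in h2 h1 hab c1
        · rwa [Equiv.swap_apply_of_ne_of_ne c2 c4]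

lemma T0.fr_swap (h : T0 N) {x y : V} (h1 : y ∈ N x) (h2 : x ∈ N y) {U : Set V} (hU : Fr N U) :
    Fr N (Equiv.swap x y ⁻¹' U) := by
  intro a ha
  rcases hU _ ha with c | ⟨b, c1, c2⟩
  · left
    rw [eq_empty_iff_forall_notMem]
    intro b hb
    have := h.swap_arc h1 h2 hb
    simp [c] at this
  · refine Or.inr ⟨Equiv.swap x y b, ?_, ?_⟩
    · have := h.swap_arc h1 h2 c1
      rwa [Equiv.swap_apply_self] at this
    · show Equiv.swap x y (Equiv.swap x y b) ∈ U
      rwa [Equiv.swap_apply_self]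

lemma T0.zero_sink (h : T0 N) (hl : Kill N l) {z : V} (hz : N z = ∅) : l z = 0 := by
  classical
  have h1 := hl {z} (by rintro x rfl; exact Or.inl hz) (by
    intro x _
    rcases h.deg x with c | c
    · obtain ⟨y, h2, h3⟩ := ex_out1 (N x) z (by omega)
      exact Or.inr ⟨y, h2, h3⟩
    · exact Or.inl c)
  simpa [ms] using h1

lemma T0.zero_digon (h : T0 N) (hl : Kill N l) {x y : V} (h1 : y ∈ N x) (h2 : x ∈ N y) :
    l x = 0 := by
  classical
  have hne := h.ne h1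
  have h3 := hl {x, y} (by
    rintro a (rfl | rfl)
    · exact Or.inr ⟨y, h1, Or.inr rfl⟩
    · exact Or.inr ⟨x, h2, Or.inl rfl⟩) (by
    intro a _
    rcases h.deg a with c | c
    · obtain ⟨b, c1, c2, c3⟩ := ex_out (N a) x y (by omega)
      exact Or.inr ⟨b, c1, by rintro (e | e); exacts [c2 e, c3 e]⟩
    · exact Or.inl c)
  unfold ms at h3
  rw [Fintype.sum_eq_add x y hne (by rintro c ⟨e1, e2⟩; simp [e1, e2])] at h3
  simp only [Set.mem_insert_iff, Set.mem_singleton_iff, true_or, or_true, if_true] at h3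
  obtain ⟨U, c1, c2, c3, c4⟩ := ex_col h.ok hne
  have h4 := hl U c1 c2
  have h5 := hl _ (h.fr_swap h1 h2 c1) (h.fr_swap h1 h2 c2)
  have h6 : ms l U - ms l (Equiv.swap x y ⁻¹' U) = l x - l y := by
    unfold ms
    rw [← sum_sub_distrib, Fintype.sum_eq_add x y hne]
    · simp [c3, c4]
      ring
    · rintro c ⟨e1, e2⟩
      simp [Equiv.swap_apply_of_ne_of_ne e1 e2]
  rw [h4, h5] at h6
  linarith

/-- `x` lies on no digon -/
def nd (N : V → Finset V) (x : V) : Prop := ∀ y ∈ N x, x ∉ N y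

lemma T0.nd_in (h : T0 N) {x p : V} (hp : nd N p) (h1 : p ∈ N x) : nd N x := by
  intro y c1 c2
  by_cases c3 : p = y
  · exact hp x (c3 ▸ c2) h1
  · obtain ⟨q, d1, d2, d3⟩ := ex_out (N x) y p (h.out3 h1).ge
    have := h.digon d3.symm (h.ne c1) h1 d1 (h.twin_out c1 c2 h1 c3) (h.twin_out c1 c2 d1 d2)
    exact hp q this.1 this.2

lemma T0.nd_out (h : T0 N) {w x : V} (hw : nd N w) (h1 : x ∈ N w) : nd N x := by
  intro y c1 c2
  have c3 : w ≠ y := fun e => hw x h1 (e ▸ c1)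
  have c4 : y ∈ N w := h.twin_in c1 c2 h1 c3
  obtain ⟨w', d1, d2⟩ := h.dom h1
  have d3 : w' ≠ y := fun e => hw y c4 (e ▸ d1)
  have d4 : y ∈ N w' := h.twin_in c1 c2 d2 d3
  obtain ⟨t, e1, e2⟩ := h.dom d2
  rcases eq_three (h.in3 h1) (mem_In.2 c2) (mem_In.2 h1) (mem_In.2 d2) c3.symm d3.symm
    (h.ne d1).symm (mem_In.2 e2) with e | e | e
  · exact hw w' (h.twin_in (e ▸ e1) d4 c4 (h.ne d1).symm) d1
  · exact hw w' (e ▸ e1) d1
  · exact h.irr w' (e ▸ e1)

lemma T0.uniq (h : T0 N) {w w' x y : V} (hx : nd N x) (hne : x ≠ y) (h1 : x ∈ N w)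
    (h2 : y ∈ N w) (h3 : x ∈ N w') (h4 : y ∈ N w') : w = w' := by
  by_contra hw
  have := h.digon hne hw h1 h2 h3 h4
  exact hx y this.1 this.2

/-- the in-neighbourhood is a directed triangle -/
lemma T0.tri_in (h : T0 N) {y a : V} (hy : nd N y) (h1 : y ∈ N a) :
    ∃ b c, b ∈ N a ∧ c ∈ N b ∧ a ∈ N c ∧ y ∈ N b ∧ y ∈ N c ∧
      ∀ z, y ∈ N z → z = a ∨ z = b ∨ z = c := by
  obtain ⟨c, c1, c2⟩ := h.dom h1
  obtain ⟨b, b1, b2⟩ := h.dom c2
  have ha := h.nd_in hy h1
  have hb := h.nd_in hy b2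
  have hab : a ≠ b := fun e => ha c (e ▸ b1) c1
  have key : ∀ z, y ∈ N z → z = a ∨ z = b ∨ z = c := fun z hz =>
    eq_three (h.in3 h1) (mem_In.2 h1) (mem_In.2 b2) (mem_In.2 c2) hab (h.ne c1).symm (h.ne b1)
      (mem_In.2 hz)
  obtain ⟨t, t1, t2⟩ := h.dom b2
  refine ⟨b, c, ?_, b1, c1, b2, c2, key⟩
  rcases key t t2 with e | e | e
  · exact e ▸ t1
  · exact absurd (e ▸ t1) (h.irr b)
  · exact absurd (e ▸ t1) (hb c b1)

/-- the neighbourhood of a vertex `y` on no digon -/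
structure Star (N : V → Finset V) (y a b c p q r : V) : Prop where
  hy : nd N y
  ab : b ∈ N a
  bc : c ∈ N b
  ca : a ∈ N c
  ay : y ∈ N a
  by' : y ∈ N b
  cy : y ∈ N c
  ap : p ∈ N a
  bq : q ∈ N b
  cr : r ∈ N c
  yp : p ∈ N y
  yq : q ∈ N y
  yr : r ∈ N y
  ra : a ∈ N r
  pb : b ∈ N p
  qc : c ∈ N q
  pq : p ≠ q
  qr : q ≠ r
  rp : r ≠ p

omit [Fintype V] [DecidableEq V] in
lemma Star.rot {y a b c p q r : V} (s : Star N y a b c p q r) : Star N y b c a q r p :=
  ⟨s.hy, s.bc, s.ca, s.ab, s.by', s.cy, s.ay, s.bq, s.cr, s.ap, s.yq, s.yr, s.yp, s.pb, s.qc,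
    s.ra, s.qr, s.rp, s.pq⟩

lemma T0.star (h : T0 N) {y a : V} (hy : nd N y) (h1 : y ∈ N a) :
    ∃ b c p q r, Star N y a b c p q r := by
  obtain ⟨b, c, ab, bc, ca, b1, c1, key⟩ := h.tri_in hy h1
  have third : ∀ a b, y ∈ N a → b ∈ N a → y ∈ N b →
      ∃ p, p ∈ N a ∧ p ≠ y ∧ p ≠ b ∧ (∀ z ∈ N a, z = y ∨ z = b ∨ z = p) ∧
        ∀ z ∈ N y, z ∈ N a → z = p := by
    intro a b e1 e2 e3
    obtain ⟨p, p1, p2, p3⟩ := ex_out (N a) y b (h.out3 e1).ge
    have e4 : ∀ z ∈ N a, z = y ∨ z = b ∨ z = p := fun z hz =>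
      eq_three (h.out3 e1) e1 e2 p1 (h.ne e3).symm p2.symm p3.symm hz
    refine ⟨p, p1, p2, p3, e4, fun z hz hz' => ?_⟩
    rcases e4 z hz' with e | e | e
    · exact absurd (e ▸ hz) (h.irr y)
    · exact absurd e3 (hy b (e ▸ hz))
    · exact e
  obtain ⟨p, p1, p2, p3, p4, p5⟩ := third a b h1 ab b1
  obtain ⟨q, q1, q2, q3, q4, q5⟩ := third b c b1 bc c1
  obtain ⟨r, r1, r2, r3, r4, r5⟩ := third c a c1 ca h1
  have pq : p ≠ q := fun e => h.ne ab (h.uniq hy p2.symm h1 p1 b1 (e ▸ q1))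
  have qr : q ≠ r := fun e => h.ne bc (h.uniq hy q2.symm b1 q1 c1 (e ▸ r1))
  have rp : r ≠ p := fun e => h.ne ca (h.uniq hy r2.symm c1 r1 h1 (e ▸ p1))
  have hsub : N y ⊆ {p, q, r} := by
    intro z hz
    obtain ⟨d, d1, d2⟩ := h.dom hz
    simp only [mem_insert, mem_singleton]
    rcases key d d1 with e | e | e
    · exact Or.inl (p5 z hz (e ▸ d2))
    · exact Or.inr (Or.inl (q5 z hz (e ▸ d2)))
    · exact Or.inr (Or.inr (r5 z hz (e ▸ d2)))
  have heq := eq_of_subset_of_card_le hsub (by rw [h.out3' h1]; exact card_le_three)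
  have back : ∀ a b c p r, y ∈ N b → c ∈ N b → a ∈ N c → r ∈ N c → r ≠ y → r ≠ a → r ≠ p →
      (∀ z ∈ N a, z = y ∨ z = b ∨ z = p) → a ∈ N r := by
    intro a b c p r e1 e2 e3 e4 e5 e6 e7 e8
    rcases h.adj e3 e4 e6.symm with e | e
    · rcases e8 r e with e' | e' | e'
      · exact absurd e' e5
      · exact absurd (e' ▸ e4) (h.nd_in hy e1 c e2)
      · exact absurd e' e7
    · exact e
  exact ⟨b, c, p, q, r, hy, ab, bc, ca, h1, b1, c1, p1, q1, r1, by simp [heq], by simp [heq],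
    by simp [heq], back a b c p r b1 bc ca r1 r2 r3 rp p4, back b c a q p c1 ca ab p1 p2 p3 pq q4,
    back c a b r q h1 ab bc q1 q2 q3 qr r4, pq, qr, rp⟩

/-- the out-neighbourhood is a directed triangle -/
lemma T0.tri_out (h : T0 N) {w x x' x'' : V} (hw : nd N w) (h1 : x ∈ N w) (h2 : x' ∈ N w)
    (h3 : x'' ∈ N w) (h4 : x' ∈ N x) (h5 : x'' ≠ x) (h6 : x'' ≠ x') :
    x'' ∈ N x' ∧ x ∈ N x'' := by
  have hx' := h.nd_out hw h2
  obtain ⟨b, c, p, q, r, s⟩ := h.star hx' h4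
  have e1 : w = c := h.uniq hx' (h.ne h4).symm h2 h1 s.cy s.ca
  subst e1
  have e2 : x ≠ r := (h.ne s.ra).symm
  rcases eq_three (h.out3 h1) h1 h2 s.cr (h.ne h4) e2 (h.ne s.yr) h3 with e | e | e
  · exact absurd e h5
  · exact absurd e h6
  · exact ⟨e ▸ s.yr, e ▸ s.ra⟩

lemma T0.third_in (h : T0 N) {y a b c p q r : V} (s : Star N y a b c p q r) :
    ∃ t, t ∈ N r ∧ a ∈ N t := by
  have ha := h.nd_in s.hy s.ay
  obtain ⟨b', c', e1, e2, e3, e4, e5, e6⟩ := h.tri_in ha s.ca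
  rcases e6 r s.ra with e | e | e
  · exact absurd (e ▸ s.cr) (h.irr c)
  · exact ⟨c', e ▸ e2, e5⟩
  · exact absurd (e ▸ e3) (h.nd_in s.hy s.cy r s.cr)

/-- first orientation of the out-triangle -/
lemma T0.case1 (h : T0 N) {y a b c p q r t t' : V} (s : Star N y a b c p q r)
    (pq : q ∈ N p) (qr : r ∈ N q) (rp : p ∈ N r) (t1 : t ∈ N r) (t2 : a ∈ N t)
    (t3 : t' ∈ N p) (t4 : b ∈ N t') : t = t' := by
  have ha := h.nd_in s.hy s.ay
  have hb := h.nd_in s.hy s.by'
  have hr := h.nd_out s.hy s.yr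
  have e1 : p ≠ t := fun e => ha p s.ap (e ▸ t2)
  have e2 := (h.tri_out hr t1 s.ra rp t2 e1 (h.ne s.ap).symm).2
  have e3 : t' ≠ q := fun e => hb q s.bq (e ▸ t4)
  rcases eq_three (h.out3 pq) s.pb t3 pq (h.ne t4).symm (h.ne s.bq) e3 e2 with e | e | e
  · exact absurd (e ▸ t2) (ha b s.ab)
  · exact e
  · exact absurd qr (hr q (e ▸ t1))

/-- second orientation of the out-triangle -/
lemma T0.case2 (h : T0 N) {y a b c p q r : V} (s : Star N y a b c p q r) (rq : q ∈ N r) :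
    a ∈ N q := by
  obtain ⟨t, t1, t2⟩ := h.third_in s
  by_cases e : q = t
  · exact e ▸ t2
  · exfalso
    have hr := h.nd_out s.hy s.yr
    have e1 : q ≠ a := fun e' => s.hy q s.yq (e' ▸ s.ay)
    have e2 := (h.tri_out hr t1 s.ra rq t2 e e1).1
    rcases eq_three (h.out3 s.ay) s.ay s.ab s.ap (h.ne s.by').symm (h.ne s.yp)
      (h.ne s.pb).symm e2 with e' | e' | e'
    · exact h.ne s.yq e'.symm
    · exact h.ne s.bq e'.symm
    · exact s.pq e'.symm

end Pool.Agent.Work.MP_97603a_co.Hedge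
end

-- merged part: Pool.Agent.Work.MP_97603a_co.Hedge.Main
section
/-! The two digon-free components, the span lemma, and the count of friendly partitions. -/

namespace Pool.Agent.Work.MP_97603a_co.Hedge

open Finset Pool.Agent.Work.MP_97603a_co.Q2

variable {V : Type} [Fintype V] [DecidableEq V]
variable {N : V → Finset V} {l : V → ℚ}

lemma ms_coe (s : Finset V) : ms l (↑s) = ∑ a ∈ s, l a := by
  unfold ms
  rw [← Fintype.sum_ite_mem s l]
  refine sum_congr rfl (fun a _ => ?_)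
  by_cases e : a ∈ s <;> simp [e]

/-- a copy of a small digraph with all in-degrees 3 is entered by no arc -/
lemma T0.emb (h : T0 N) (hl : Kill N l) {m : ℕ} (M : Fin m → Finset (Fin m)) (f : Fin m → V)
    (hA : ∀ i, ∀ j ∈ M i, f j ∈ N (f i)) (hn : ∀ i, nd N (f i))
    (hd : ∀ i j, i ≠ j → j ∈ M i ∨ i ∈ M j ∨ ∃ k ∈ M i, j ∈ M k)
    (hin : ∀ j, (univ.filter (fun i => j ∈ M i)).card = 3)
    (U : Finset (Fin m)) (h1 : ∀ i ∈ U, ∃ j ∈ M i, j ∈ U) (h2 : ∀ i ∉ U, ∃ j ∈ M i, j ∉ U) :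
    ∑ i ∈ U, l (f i) = 0 := by
  classical
  have inj : Function.Injective f := by
    intro i j e
    by_contra hij
    rcases hd i j hij with c | c | ⟨k, c1, c2⟩
    · exact h.ne (hA i j c) e
    · exact h.ne (hA j i c) e.symm
    · exact hn i _ (hA i k c1) (e ▸ hA k j c2)
  have hcl : ∀ j x, f j ∈ N x → ∃ i, f i = x := by
    intro j x hx
    have c1 : (univ.filter (fun i => j ∈ M i)).image f ⊆ In N (f j) := by
      intro a ha
      obtain ⟨i, c2, rfl⟩ := mem_image.1 ha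
      exact mem_In.2 (hA i j (mem_filter.1 c2).2)
    have c2 := eq_of_subset_of_card_le c1
      (by rw [card_image_of_injective _ inj, hin, h.in3 hx])
    have c3 := mem_In.2 hx
    rw [← c2] at c3
    obtain ⟨i, -, c4⟩ := mem_image.1 c3
    exact ⟨i, c4⟩
  have h3 := hl (↑(U.image f)) (by
    intro x hx
    obtain ⟨i, c1, rfl⟩ := mem_image.1 (mem_coe.1 hx)
    obtain ⟨j, c2, c3⟩ := h1 i c1
    exact Or.inr ⟨f j, hA i j c2, mem_coe.2 (mem_image_of_mem f c3)⟩) (by
    intro x hx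
    by_cases c0 : ∃ i, f i = x
    · obtain ⟨i, rfl⟩ := c0
      obtain ⟨j, c2, c3⟩ := h2 i (fun e => hx (mem_coe.2 (mem_image_of_mem f e)))
      refine Or.inr ⟨f j, hA i j c2, fun e => c3 ?_⟩
      obtain ⟨k, c4, c5⟩ := mem_image.1 (mem_coe.1 e)
      exact inj c5 ▸ c4
    · rcases (N x).eq_empty_or_nonempty with c | ⟨y, c⟩
      · exact Or.inl c
      · refine Or.inr ⟨y, c, fun e => c0 ?_⟩
        obtain ⟨k, -, rfl⟩ := mem_image.1 (mem_coe.1 e)
        exact hcl k x c)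
  rw [← sum_image (s := U) (g := f) (f := l) (fun a _ b _ e => inj e), ← h3, ms_coe]

def M8 : Fin 8 → Finset (Fin 8) :=
  ![{4, 5, 6}, {0, 2, 4}, {0, 3, 5}, {0, 1, 6}, {2, 7, 5}, {3, 7, 6}, {1, 7, 4}, {1, 2, 3}]

def M7 : Fin 7 → Finset (Fin 7) :=
  ![{4, 5, 6}, {0, 2, 4}, {0, 3, 5}, {0, 1, 6}, {2, 3, 6}, {3, 1, 4}, {1, 2, 5}]

lemma T0.zero8 (h : T0 N) (hl : Kill N l) {y a b c p q r t : V} (s : Star N y a b c p q r)
    (pq : q ∈ N p) (qr : r ∈ N q) (rp : p ∈ N r) (pt : t ∈ N p) (qt : t ∈ N q) (rt : t ∈ N r)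
    (ta : a ∈ N t) (tb : b ∈ N t) (tc : c ∈ N t) : l y = 0 := by
  have ha := h.nd_in s.hy s.ay
  have key := h.emb hl M8 ![y, a, b, c, p, q, r, t] (by
    intro i j hj
    obtain ⟨_, _, _, _, _, _, _, _, _, _, _, _, _, _, _, _, _, _, _⟩ := s
    fin_cases i <;> simp only [M8] at hj <;> simp at hj <;> rcases hj with rfl | rfl | rfl <;>
      assumption) (by
    intro i
    fin_cases i
    exacts [s.hy, ha, h.nd_in s.hy s.by', h.nd_in s.hy s.cy, h.nd_out s.hy s.yp,
      h.nd_out s.hy s.yq, h.nd_out s.hy s.yr, h.nd_in ha ta]) (by decide) (by decide)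
  have k0 := key {0, 1, 2, 3, 4, 5, 6, 7} (by decide) (by decide)
  have k1 := key {0, 1, 2, 4} (by decide) (by decide)
  have k2 := key {0, 1, 3, 6} (by decide) (by decide)
  have k3 := key {0, 1, 5, 7} (by decide) (by decide)
  have k4 := key {0, 2, 3, 5} (by decide) (by decide)
  have k5 := key {0, 2, 6, 7} (by decide) (by decide)
  have k6 := key {0, 3, 4, 7} (by decide) (by decide)
  have k7 := key {0, 4, 5, 6} (by decide) (by decide)
  simp at k0 k1 k2 k3 k4 k5 k6 k7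
  linarith

lemma T0.zero7 (h : T0 N) (hl : Kill N l) {y a b c p q r : V} (s : Star N y a b c p q r)
    (qp : p ∈ N q) (pr : r ∈ N p) (rq : q ∈ N r) (qa : a ∈ N q) (rb : b ∈ N r) (pc : c ∈ N p) :
    l y = 0 := by
  have key := h.emb hl M7 ![y, a, b, c, p, q, r] (by
    intro i j hj
    obtain ⟨_, _, _, _, _, _, _, _, _, _, _, _, _, _, _, _, _, _, _⟩ := s
    fin_cases i <;> simp only [M7] at hj <;> simp at hj <;> rcases hj with rfl | rfl | rfl <;>
      assumption) (by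
    intro i
    fin_cases i
    exacts [s.hy, h.nd_in s.hy s.ay, h.nd_in s.hy s.by', h.nd_in s.hy s.cy, h.nd_out s.hy s.yp,
      h.nd_out s.hy s.yq, h.nd_out s.hy s.yr]) (by decide) (by decide)
  have k0 := key {0, 1, 2, 3, 4, 5, 6} (by decide) (by decide)
  have k1 := key {0, 1, 2, 4} (by decide) (by decide)
  have k2 := key {0, 1, 3, 6} (by decide) (by decide)
  have k3 := key {0, 1, 5} (by decide) (by decide)
  have k4 := key {0, 2, 3, 5} (by decide) (by decide)
  have k5 := key {0, 2, 6} (by decide) (by decide)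
  have k6 := key {0, 3, 4} (by decide) (by decide)
  have k7 := key {0, 4, 5, 6} (by decide) (by decide)
  simp at k0 k1 k2 k3 k4 k5 k6 k7
  linarith

lemma T0.zero (h : T0 N) (hl : Kill N l) (y : V) : l y = 0 := by
  rcases h.deg y with h1 | h1
  swap
  · exact h.zero_sink hl h1
  by_cases hy : nd N y
  swap
  · unfold nd at hy
    push Not at hy
    obtain ⟨x, c1, c2⟩ := hy
    exact h.zero_digon hl c1 c2
  obtain ⟨a, ha⟩ : (In N y).Nonempty := card_pos.1 (by rw [h.ind]; omega)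
  obtain ⟨b, c, p, q, r, s⟩ := h.star hy (mem_In.1 ha)
  rcases h.adj s.yp s.yq s.pq with pq | qp
  · obtain ⟨qr, rp⟩ := h.tri_out hy s.yp s.yq s.yr pq s.rp s.qr.symm
    obtain ⟨t, t1, t2⟩ := h.third_in s
    obtain ⟨t', t3, t4⟩ := h.third_in s.rot
    obtain ⟨t'', t5, t6⟩ := h.third_in s.rot.rot
    have e1 := h.case1 s pq qr rp t1 t2 t3 t4
    have e2 := h.case1 s.rot qr rp pq t3 t4 t5 t6
    subst e1
    subst e2
    exact h.zero8 hl s pq qr rp t3 t5 t1 t2 t4 t6
  · obtain ⟨pr, rq⟩ := h.tri_out hy s.yq s.yp s.yr qp s.qr.symm s.rp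
    exact h.zero7 hl s qp pr rq (h.case2 s rq) (h.case2 s.rot pr) (h.case2 s.rot.rot qp)

/-- the span lemma -/
theorem all_zero (n : ℕ) : ∀ (N : V → Finset V) (o : V → V), OK N o → mu N < n →
    ∀ l, Kill N l → ∀ a, l a = 0 := by
  induction n with
  | zero => intro N o _ h; omega
  | succ n ih =>
    intro N o h hn l hl
    rcases zero_or_tight h (fun N' o' c1 c2 => ih N' o' c1 (by omega)) hl with c | c
    · exact c
    · exact c.zero hl

theorem card_le (V : Type) [Fintype V] (G : Digraph V) (hl : ∀ x, ¬ G.Adj x x)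
    (hd : ∀ x, 3 ≤ {y | G.Adj x y}.ncard) :
    Fintype.card V ≤
      {P : Set (Set V) | ∃ U W, IsFriendlyPartition G U W ∧ P = {U, W}}.ncard + 1 := by
  classical
  have hN : ∀ x, ∃ A : Finset V, A.card = 3 ∧ ∀ y ∈ A, G.Adj x y := by
    intro x
    have h1 : 3 ≤ ((Set.toFinite {y | G.Adj x y}).toFinset).card := by
      rw [← Set.ncard_eq_toFinset_card]
      exact hd x
    obtain ⟨A, h2, h3⟩ := exists_subset_card_eq h1
    exact ⟨A, h3, fun y hy => by simpa using h2 hy⟩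
  choose N hc hN using hN
  have hne : ∀ x, N x ≠ ∅ := fun x h => by have := hc x; simp [h] at this
  have hok : OK N id := ⟨fun x hx => hl x (hN x x hx), fun x => Or.inl (hc x)⟩
  have hfr : ∀ U, Fr N U → ∀ x ∈ U, ∃ y ∈ U, G.Adj x y := by
    intro U hU x hx
    obtain ⟨y, c1, c2⟩ := (hU x hx).resolve_left (hne x)
    exact ⟨y, c2, hN x y c1⟩
  set S := {P : Set (Set V) | ∃ U W, IsFriendlyPartition G U W ∧ P = {U, W}} with hS
  have hch : ∀ P : S, ∃ U : Set V, (P : Set (Set V)) = {U, Uᶜ} := by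
    rintro ⟨P, U, W, ⟨-, -, c1, c2, -⟩, c3⟩
    refine ⟨U, ?_⟩
    have : W = Uᶜ := (IsCompl.compl_eq ⟨c1, codisjoint_iff.2 c2⟩).symm
    rw [← this]
    exact c3
  choose sd hsd using hch
  have hadd : ∀ (U : Set V) (l l' : V → ℚ), ms (l + l') U = ms l U + ms l' U := by
    intro U l l'
    unfold ms
    rw [← sum_add_distrib]
    refine sum_congr rfl (fun a _ => ?_)
    split_ifs <;> simp
  have hsm : ∀ (U : Set V) (c : ℚ) (l : V → ℚ), ms (c • l) U = c * ms l U := by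
    intro U c l
    unfold ms
    rw [mul_sum]
    refine sum_congr rfl (fun a _ => ?_)
    split_ifs <;> simp
  have hco : ∀ (U : Set V) (l : V → ℚ), ms l U + ms l Uᶜ = ms l Set.univ := by
    intro U l
    unfold ms
    rw [← sum_add_distrib]
    refine sum_congr rfl (fun a _ => ?_)
    by_cases e : a ∈ U <;> simp [e]
  let F : (V → ℚ) →ₗ[ℚ] (Option S → ℚ) :=
    { toFun := fun l i => ms l (i.elim Set.univ sd)
      map_add' := fun l l' => funext (fun i => hadd _ l l')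
      map_smul' := fun c l => funext (fun i => hsm _ c l) }
  have hinj : Function.Injective F := by
    rw [injective_iff_map_eq_zero]
    intro l h0
    have h1 : ms l Set.univ = 0 := congrFun h0 none
    have h2 : ∀ P : S, ms l (sd P) = 0 := fun P => congrFun h0 (some P)
    funext a
    refine all_zero _ N id hok (Nat.lt_succ_self _) l ?_ a
    intro U c1 c2
    rcases U.eq_empty_or_nonempty with c3 | c3
    · simp [ms, c3]
    rcases Uᶜ.eq_empty_or_nonempty with c4 | c4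
    · rw [Set.compl_empty_iff.1 c4, h1]
    have c5 : ({U, Uᶜ} : Set (Set V)) ∈ S :=
      ⟨U, Uᶜ, ⟨c3, c4, disjoint_compl_right, by simp, hfr U c1, hfr _ c2⟩, rfl⟩
    have c6 : U ∈ ({sd ⟨_, c5⟩, (sd ⟨_, c5⟩)ᶜ} : Set (Set V)) := by
      rw [← hsd ⟨_, c5⟩]
      exact Or.inl rfl
    have c7 := h2 ⟨_, c5⟩
    have c8 := hco (sd ⟨_, c5⟩) l
    rcases c6 with e | e
    · exact (congrArg (ms l) e).trans c7
    · refine (congrArg (ms l) e).trans ?_
      linarith
  have h3 := LinearMap.finrank_le_finrank_of_injective hinj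
  simp only [Module.finrank_fintype_fun_eq_card, Fintype.card_option] at h3
  rw [← Nat.card_coe_set_eq, Nat.card_eq_fintype_card]
  exact h3

end Pool.Agent.Work.MP_97603a_co.Hedge
end
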